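import Pool.Agent.P.MP_52ab5a_al.O.Iface
import Pool.Agent.P.MP_52ab5a_al.F.Iface

/-! Step OBLK of the open orbit project. -/

namespace Pool.Agent.P.MP_52ab5a_al

open MvPolynomial WM

namespace OblkAux

variable {β : Type} [Fintype β] (p : β → Prop) [DecidablePred p]

/-- The columns outside `p` vanish. -/
def Kc (A : Matrix β β ℂ) : Prop := ∀ c b, ¬p b → A c b = 0

theorem mul_apply_sub {A : Matrix β β ℂ} (hA : Kc p A) (B : Matrix β β ℂ) (c d : β) :
    (A * B) c d = ∑ b : {b // p b}, A c b.1 * B b.1 d := by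
  rw [Matrix.mul_apply, ← Fintype.sum_subtype_add_sum_subtype p (fun b => A c b * B b d)]
  have : ∑ b : {b // ¬p b}, A c b.1 * B b.1 d = 0 :=
    Finset.sum_eq_zero fun b _ => by rw [hA c b.1 b.2, zero_mul]
  rw [this, add_zero]

theorem sub_mul {A : Matrix β β ℂ} (hA : Kc p A) (B : Matrix β β ℂ) :
    (A * B).submatrix (Subtype.val : {b // p b} → β) (Subtype.val : {b // p b} → β) =
      A.submatrix (Subtype.val : {b // p b} → β) (Subtype.val : {b // p b} → β) *
        B.submatrix (Subtype.val : {b // p b} → β) (Subtype.val : {b // p b} → β) := by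
  ext c d
  rw [Matrix.submatrix_apply, mul_apply_sub p hA, Matrix.mul_apply]
  rfl

omit [DecidablePred p] in
theorem kc_mul (A : Matrix β β ℂ) {B : Matrix β β ℂ} (hB : Kc p B) : Kc p (A * B) := by
  intro c b hb
  rw [Matrix.mul_apply]
  exact Finset.sum_eq_zero fun d _ => by rw [hB d b hb, mul_zero]

omit [DecidablePred p] in
theorem kc_prod [DecidableEq β] (l : List (Matrix β β ℂ)) (hl : ∀ A ∈ l, Kc p A) :
    ∀ A, Kc p A → Kc p (A * l.prod) := by
  induction l with
  | nil => intro A hA; simpa using hA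
  | cons B l ih =>
    intro A _
    rw [List.prod_cons]
    exact kc_mul p A (ih (fun C hC => hl C (List.mem_cons_of_mem _ hC)) B (hl B List.mem_cons_self))

theorem sub_prod [DecidableEq β] [i : DecidableEq {b // p b}] {α : Type} (F : α → Matrix β β ℂ)
    (hF : ∀ a, Kc p (F a)) (l : List α) :
    (l.map F).prod.submatrix (Subtype.val : {b // p b} → β) (Subtype.val : {b // p b} → β) =
      (l.map fun a => (F a).submatrix (Subtype.val : {b // p b} → β)
        (Subtype.val : {b // p b} → β)).prod := by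
  induction l with
  | nil => simpa using Matrix.submatrix_one _ Subtype.val_injective
  | cons a l ih => rw [List.map_cons, List.prod_cons, sub_mul p (hF a), ih, List.map_cons,
      List.prod_cons]

omit [Fintype β] [DecidablePred p] in
theorem sub_sum {α : Type} [Fintype α] (F : α → Matrix β β ℂ) :
    (∑ a, F a).submatrix (Subtype.val : {b // p b} → β) (Subtype.val : {b // p b} → β) =
      ∑ a, (F a).submatrix (Subtype.val : {b // p b} → β) (Subtype.val : {b // p b} → β) := by
  ext c d
  simp only [Matrix.submatrix_apply, Matrix.sum_apply]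

omit [DecidablePred p] in
theorem upper_mul {A B : Matrix β β ℂ} (hA : ∀ c b, A c b ≠ 0 → ¬p c ∧ p b)
    (hB : ∀ c b, B c b ≠ 0 → ¬p c ∧ p b) : A * B = 0 := by
  ext c d
  rw [Matrix.mul_apply]
  refine Finset.sum_eq_zero fun b _ => ?_
  by_contra h
  exact (hB b d (right_ne_zero_of_mul h)).1 (hA c b (left_ne_zero_of_mul h)).2

variable {Q₀ Q₁ : Type} [DecidableEq Q₀] (s t : Q₁ → Q₀) (vx : β → Q₀)

omit [Fintype β] [DecidablePred p] in
theorem dbl_rst (y : Ent s t vx ⊕ Ent s t vx → ℂ) (a : Q₁ ⊕ Q₁) :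
    dbl s t (vx ∘ Subtype.val) (rst s t vx p y) a =
      (dbl s t vx y a).submatrix Subtype.val Subtype.val := by
  ext c b
  rcases a with a | a
  · rfl
  · rfl

variable [Fintype Q₁] [LinearOrder β]

omit [LinearOrder β] in
theorem mom_rst (y : Ent s t vx ⊕ Ent s t vx → ℂ) (hy : Kills s t vx p y) :
    ∑ a, (dbl s t (vx ∘ Subtype.val) (rst s t vx p y) (Sum.inr a) *
        dbl s t (vx ∘ Subtype.val) (rst s t vx p y) (Sum.inl a) -
      dbl s t (vx ∘ Subtype.val) (rst s t vx p y) (Sum.inl a) *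
        dbl s t (vx ∘ Subtype.val) (rst s t vx p y) (Sum.inr a)) =
    (∑ a, (dbl s t vx y (Sum.inr a) * dbl s t vx y (Sum.inl a) -
      dbl s t vx y (Sum.inl a) * dbl s t vx y (Sum.inr a))).submatrix Subtype.val Subtype.val := by
  rw [sub_sum]
  refine Finset.sum_congr rfl fun a _ => ?_
  rw [dbl_rst, dbl_rst, ← sub_mul p (hy _), ← sub_mul p (hy _)]
  rfl

theorem down (y : Ent s t vx ⊕ Ent s t vx → ℂ) (hy : Kills s t vx p y) (h : y ∈ nilVar s t vx) :
    rst s t vx p y ∈ nilVar s t (vx ∘ Subtype.val) := by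
  obtain ⟨h1, m, h2⟩ := h
  refine ⟨?_, m, fun l hl => ?_⟩
  · rw [mom_rst p s t vx y hy, h1]
    rfl
  · have e : dbl s t (vx ∘ Subtype.val) (rst s t vx p y) = fun a =>
        (dbl s t vx y a).submatrix Subtype.val Subtype.val := funext (dbl_rst p s t vx y)
    rw [e, ← sub_prod p (i := _) (dbl s t vx y) hy l, h2 l hl]
    rfl

theorem up (y : Ent s t vx ⊕ Ent s t vx → ℂ) (hy : Kills s t vx p y)
    (h : rst s t vx p y ∈ nilVar s t (vx ∘ Subtype.val))
    (hr : ∀ b c, ¬p b → (∑ a, (dbl s t vx y (Sum.inr a) * dbl s t vx y (Sum.inl a) -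
      dbl s t vx y (Sum.inl a) * dbl s t vx y (Sum.inr a))) b c = 0) : y ∈ nilVar s t vx := by
  obtain ⟨h1, m, h2⟩ := h
  refine ⟨?_, m + 1, fun l hl => ?_⟩
  · rw [mom_rst p s t vx y hy] at h1
    ext b c
    by_cases hb : p b
    · by_cases hc : p c
      · exact congrFun (congrFun h1 ⟨b, hb⟩) ⟨c, hc⟩
      · rw [Matrix.sum_apply]
        refine Finset.sum_eq_zero fun a _ => ?_
        rw [Matrix.sub_apply, kc_mul p _ (hy _) b c hc, kc_mul p _ (hy _) b c hc, sub_zero]
    · exact hr b c hb
  · obtain _ | ⟨a, l⟩ := l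
    · simp at hl
    have e : dbl s t (vx ∘ Subtype.val) (rst s t vx p y) = fun a =>
        (dbl s t vx y a).submatrix Subtype.val Subtype.val := funext (dbl_rst p s t vx y)
    have h3 := h2 l (by simpa using hl)
    rw [e, ← sub_prod p (i := _) (dbl s t vx y) hy l] at h3
    rw [List.map_cons, List.prod_cons]
    ext c d
    by_cases hd : p d
    · rw [mul_apply_sub p (hy a)]
      refine Finset.sum_eq_zero fun b _ => ?_
      have h4 : (l.map (dbl s t vx y)).prod b.1 d = 0 := congrFun (congrFun h3 b) ⟨d, hd⟩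
      rw [h4, mul_zero]
    · refine kc_prod p _ (fun A hA => ?_) _ (hy a) c d hd
      obtain ⟨a', -, rfl⟩ := List.mem_map.mp hA
      exact hy a'

end OblkAux

open OblkAux in
theorem p_OBLK (hADM : S_ADM) :
    S_OBLK := by
  intro Q₀ Q₁ β _ _ _ _ s t vx p _ y
  classical
  refine ⟨dbl_rst p s t vx y, fun hy => ⟨down p s t vx y hy, up p s t vx y hy, fun v hv h => ?_,
    fun v h hv hd u => ?_⟩⟩
  · unfold DMu at h ⊢
    have h1 := congrArg (fun A : Matrix β β ℂ => A.submatrix (Subtype.val : {b // p b} → β)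
      (Subtype.val : {b // p b} → β)) h
    simp only [sub_sum] at h1
    refine Eq.trans (Finset.sum_congr rfl fun a _ => ?_) h1
    simp only [dbl_rst]
    rw [← OblkAux.sub_mul p (hv _), ← OblkAux.sub_mul p (hy _), ← OblkAux.sub_mul p (hv _),
      ← OblkAux.sub_mul p (hy _)]
    rfl
  · obtain ⟨-, -, -, -, -, -, -, h8, -⟩ := hADM Q₀ Q₁ β s t vx
    obtain ⟨-, -, h3, -⟩ := hADM Q₀ Q₁ {b // p b} s t (vx ∘ Subtype.val)
    have e : ∀ a, dbl s t vx (y + u • v) a = dbl s t vx y a + u • dbl s t vx v a := fun a => by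
      rw [(h8 y (u • v) u a).1, (h8 v v u a).2]
    have hk : Kills s t vx p (y + u • v) := by
      intro a c b hb
      have h0 : dbl s t vx v a c b = 0 := by
        by_contra h0
        exact hb (hv a c b h0).2
      rw [e, Matrix.add_apply, Matrix.smul_apply, hy a c b hb, h0, smul_zero, add_zero]
    have hr : rst s t vx p (y + u • v) = rst s t vx p y := by
      refine h3 _ _ fun a => ?_
      rw [dbl_rst, dbl_rst, e]
      ext c b
      have h0 : dbl s t vx v a c.1 b.1 = 0 := by
        by_contra h0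
        exact (hv a _ _ h0).1 c.2
      simp only [Matrix.submatrix_apply, Matrix.add_apply, Matrix.smul_apply, h0, smul_zero,
        add_zero]
    refine up p s t vx _ hk (by rw [hr]; exact down p s t vx y hy h) fun b c _ => ?_
    have hm : ∑ a, (dbl s t vx (y + u • v) (Sum.inr a) * dbl s t vx (y + u • v) (Sum.inl a) -
        dbl s t vx (y + u • v) (Sum.inl a) * dbl s t vx (y + u • v) (Sum.inr a)) = 0 := by
      have h1 := h.1
      unfold DMu at hd
      have h2 := congrArg (fun A : Matrix β β ℂ => u • A) hd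
      simp only [Finset.smul_sum, smul_zero] at h2
      rw [← add_zero (0 : Matrix β β ℂ)]
      conv_rhs => rw [← h1]
      rw [h1]
      have h5 := congrArg₂ (· + ·) h1 h2
      simp only [← Finset.sum_add_distrib] at h5
      refine Eq.trans (Finset.sum_congr rfl fun a _ => ?_) h5
      have z1 := upper_mul p (hv (Sum.inr a)) (hv (Sum.inl a))
      have z2 := upper_mul p (hv (Sum.inl a)) (hv (Sum.inr a))
      simp only [e, Matrix.add_mul, Matrix.mul_add, Matrix.smul_mul, Matrix.mul_smul, z1, z2,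
        smul_zero, add_zero, smul_sub, smul_add]
      abel
    rw [hm]
    rfl

end Pool.Agent.P.MP_52ab5a_al
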