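import Pool.Agent.P.MP_52ab5a_al.O.Iface
import Pool.Agent.P.MP_52ab5a_al.F.Iface

/-! Step OCR of the open orbit project. -/

namespace Pool.Agent.P.MP_52ab5a_al

open MvPolynomial WM

namespace OcrAux

variable {Q₀ Q₁ β : Type} [DecidableEq Q₀] {s t : Q₁ → Q₀} {vx : β → Q₀}

theorem reg_dbl {c : ℂ → Ent s t vx ⊕ Ent s t vx → ℂ} (hc : ∀ i, RegFn fun u => c u i)
    (a : Q₁ ⊕ Q₁) (i j : β) : RegFn fun u => dbl s t vx (c u) a i j := by
  rcases a with a | a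
  · exact RegFn.dite _ (fun _ => hc _) fun _ => RegFn.const 0
  · exact RegFn.dite _ (fun _ => hc _) fun _ => RegFn.const 0

theorem reg_of_dbl {c : ℂ → Ent s t vx ⊕ Ent s t vx → ℂ}
    (hc : ∀ a i j, RegFn fun u => dbl s t vx (c u) a i j) (i : Ent s t vx ⊕ Ent s t vx) :
    RegFn fun u => c u i := by
  rcases i with p | p
  · simpa [dbl, mat, p.2.1, p.2.2] using hc (Sum.inl p.1.1) p.1.2.1 p.1.2.2
  · simpa [dbl, mat, p.2.1, p.2.2] using hc (Sum.inr p.1.1) p.1.2.2 p.1.2.1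

theorem self_mem [Fintype β] [LinearOrder β] (y : Ent s t vx ⊕ Ent s t vx → ℂ) :
    y ∈ orbit s t vx y :=
  ⟨1, isUnit_one, fun _ _ h => Matrix.one_apply_ne fun e => h (e ▸ rfl), fun a => by simp⟩

end OcrAux

open OcrAux in
theorem p_OCR (hADM : S_ADM) (hRIGQ : S_RIGQ) :
    S_OCR := by
  intro Q₀ Q₁ β _ _ _ _ s t vx y
  classical
  obtain ⟨-, -, h3, -, h5, h6, -, -, -, -, -, -, -, -, -, -, -, -, -, hl⟩ := hADM Q₀ Q₁ β s t vx
  refine ⟨fun ⟨W, ⟨T, hT⟩, hW⟩ c hc h0 hf => ?_, fun γ δ z hg hz hy c hc h0 hf => ?_⟩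
  · have h1 := (hW ▸ self_mem y : y ∈ nilVar s t vx \ W).2
    rw [hT] at h1
    simp only [Set.mem_ofPred_eq, not_forall] at h1
    obtain ⟨f, hfT, hfy⟩ := h1
    refine (hf.union ((RegFn.polyFn (PolyFn.eval f) hc).finite_zero (by rwa [h0]))).subset
      fun u hu => ?_
    by_contra hn
    simp only [Set.mem_union, Set.mem_ofPred_eq, not_or, not_not] at hn
    exact hu (hW ▸ ⟨hn.1, fun hw => hn.2 ((hT ▸ hw : c u ∈ {x | ∀ f ∈ T, eval x f = 0}) f hfT)⟩)
  · have hg' : GInv vx δ γ := ⟨hg.gd', hg.gd, hg.mul', hg.mul⟩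
    choose c' hc' using fun u => h5 (fun a => δ * dbl s t vx (c u) a * γ) fun a i j hij => by
      simp only [Matrix.mul_apply] at hij
      obtain ⟨k, -, hk⟩ := Finset.exists_ne_zero_of_sum_ne_zero hij
      obtain ⟨l, -, hl⟩ := Finset.exists_ne_zero_of_sum_ne_zero (left_ne_zero_of_mul hk)
      have e1 : vx i = vx l := by_contra fun e => left_ne_zero_of_mul hl (hg.gd' _ _ e)
      have e2 : vx k = vx j := by_contra fun e => right_ne_zero_of_mul hk (hg.gd _ _ e)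
      rw [e1, ← e2]
      exact h6 _ _ _ _ (right_ne_zero_of_mul hl)
    have hi : ∀ u, Intw s t vx δ (c u) (c' u) := fun u a => by
      rw [hc', Matrix.mul_assoc, hg.mul, Matrix.mul_one]
    have hR := fun u => (hRIGQ Q₀ Q₁ β s t vx (c u)).2 δ γ (c' u) hg' (hi u)
    refine (hy c' (reg_of_dbl fun a i j => ?_) (h3 _ _ fun a => ?_)
      (hf.subset fun u hu h => hu ((hR u).2.1 h))).subset fun u hu h => hu ?_
    · simp only [hc']
      exact RegFn.matMul (A := fun u => δ * dbl s t vx (c u) a) (B := fun _ => γ)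
        (RegFn.matMul (A := fun _ => δ) (B := fun u => dbl s t vx (c u) a)
          (fun _ _ => RegFn.const _) (reg_dbl hc a)) (fun _ _ => RegFn.const _) i j
    · rw [hc', h0, Matrix.mul_assoc, ← hz a, ← Matrix.mul_assoc, hg.mul', Matrix.one_mul]
    · obtain ⟨γ', hu', hd, h2⟩ := h
      obtain ⟨δ', h1⟩ := hl γ' hu' hd
      rw [← ((hRIGQ Q₀ Q₁ β s t vx y).2 γ δ z hg hz).2.2,
        ((hRIGQ Q₀ Q₁ β s t vx y).2 γ' δ' _ h1 h2).2.2, ← (hR u).2.2]
      exact self_mem _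

end Pool.Agent.P.MP_52ab5a_al
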