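import Pool.Agent.P.MP_52ab5a_al.O.Iface
import Pool.Agent.P.MP_52ab5a_al.F.Iface

/-! Step OIND of the open orbit project. -/

namespace Pool.Agent.P.MP_52ab5a_al

open MvPolynomial WM

theorem p_OIND (hADM : S_ADM) (hRIGQ : S_RIGQ) (hSOC : S_SOC) (hOCR : S_OCR) (hOTAN : S_OTAN) (hOBLK : S_OBLK) (hOONE : S_OONE) (hOTWO : S_OTWO) :
    S_OIND := by
  intro Q₀ Q₁ β₀ _ _ _ _ s t vx₀ y₀ hst
  have key : ∀ (n : ℕ) (β : Type) [Fintype β] [LinearOrder β] (vx : β → Q₀)
      (y : Ent s t vx ⊕ Ent s t vx → ℂ), Fintype.card β = n → y ∈ nilVar s t vx → CR s t vx y →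
      RigM s t vx y := by
    intro n
    induction n using Nat.strong_induction_on with
    | _ n ih =>
    intro β _ _ vx y hn hy hc
    rcases isEmpty_or_nonempty β with he | hne
    · exact ⟨hy.1, fun v _ => ⟨0, fun _ _ _ => rfl, fun a => Subsingleton.elim _ _⟩⟩
    obtain ⟨h1, h2⟩ := hSOC Q₀ Q₁ β s t vx y hy
    obtain ⟨j, v0, hv0, hs0, hk0⟩ := h1 hne
    obtain ⟨γ, δ, z, lev, dn, hγ, hI, hp, hl, hS⟩ := h2 [j]
    have d0 : dn[0]? = some j := by obtain ⟨r, rfl⟩ := hp; rfl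
    have hS0 := hS 0 j d0
    have pj : ∀ b, ¬0 < lev b → vx b = j := fun b hb => by
      have := hl b
      rw [show lev b = 0 by omega, d0] at this
      exact (Option.some.inj this).symm
    have kl : Kills s t vx (fun b => 0 < lev b) z := fun a c b hb => by
      have := (hS0 (Pi.single b 1) fun c hc => Pi.single_eq_of_ne (by
        rintro rfl; exact hc (pj _ hb)) _).2 (fun c hc => Pi.single_eq_of_ne (by
          rintro rfl; exact hb hc) _) a c (Nat.zero_le _)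
      simpa using this
    have so : ∀ v : β → ℂ, (∀ c, vx c ≠ j → v c = 0) → (∀ a, (dbl s t vx z a).mulVec v = 0) →
        ∀ c, 0 < lev c → v c = 0 := fun v hv h => (hS0 v hv).1 fun a c _ => by rw [h a]; rfl
    have ex : ∃ b, ¬0 < lev b := by
      by_contra h
      have e : γ.mulVec v0 = 0 := funext fun c => so (γ.mulVec v0) (fun c hc => by
        refine Finset.sum_eq_zero fun b _ => ?_
        by_cases hb : vx b = j
        · exact mul_eq_zero_of_left (hγ.gd c b (hb ▸ hc)) _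
        · exact mul_eq_zero_of_right _ (hs0 b hb)) (fun a => by
          rw [Matrix.mulVec_mulVec, ← hI a, ← Matrix.mulVec_mulVec, hk0 a, Matrix.mulVec_zero]) c
        (not_not.1 fun hc => h ⟨c, hc⟩)
      apply hv0
      rw [← Matrix.one_mulVec v0, ← hγ.mul', ← Matrix.mulVec_mulVec, e, Matrix.mulVec_zero]
    obtain ⟨b0, hb0⟩ := ex
    have hz := ((hRIGQ Q₀ Q₁ β s t vx y).2 γ δ z hγ hI).2.1 hy
    have cz := (hOCR Q₀ Q₁ β s t vx y).2 γ δ z hγ hI hc
    obtain ⟨-, bl⟩ := hOBLK Q₀ Q₁ β s t vx (fun b => 0 < lev b) z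
    obtain ⟨b1, -, -, b4⟩ := bl kl
    have r := ih _ (hn ▸ Fintype.card_subtype_lt (p := fun b => 0 < lev b) hb0) _ _ _ rfl (b1 hz)
      (hOONE Q₀ Q₁ β s t vx (fun b => 0 < lev b) j z hst pj kl so hz cz)
    have rz := hOTWO Q₀ Q₁ β s t vx (fun b => 0 < lev b) j z hst pj kl hz.1 r fun v hu hd =>
      hOTAN Q₀ Q₁ β s t vx z v (cz (fun u => z + u • v)
        (fun i => (RegFn.const (z i)).add (RegFn.id.mul (RegFn.const (v i)))) (by simp)
        (Set.finite_empty.subset fun u hu' => hu' (b4 v hz hu hd u)))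
    refine ((hRIGQ Q₀ Q₁ β s t vx z).2 δ γ y ⟨hγ.gd', hγ.gd, hγ.mul', hγ.mul⟩ fun a => ?_).1 rz
    rw [← Matrix.mul_one (δ * _), ← hγ.mul, ← Matrix.mul_assoc, Matrix.mul_assoc δ, ← hI a,
      ← Matrix.mul_assoc, hγ.mul', Matrix.one_mul]
  exact key _ β₀ vx₀ y₀ rfl

end Pool.Agent.P.MP_52ab5a_al
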