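import Pool.Agent.P.MP_52ab5a_al.O.Iface

/-! Step OLIFT of the open orbit project. -/

namespace Pool.Agent.P.MP_52ab5a_al

open MvPolynomial WM

namespace OliftAux

theorem exists_left {J K : Type} [Fintype J] [Fintype K] [DecidableEq K] (B : Matrix J K ℂ)
    (h : Function.Injective B.mulVec) : ∃ L : Matrix K J ℂ, L * B = 1 := by
  classical
  obtain ⟨g, hg⟩ := (Matrix.toLin' B).exists_leftInverse_of_injective
    (LinearMap.ker_eq_bot.2 fun v w hvw => h (by simpa only [Matrix.toLin'_apply] using hvw))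
  refine ⟨LinearMap.toMatrix' g, ?_⟩
  have := congrArg LinearMap.toMatrix' hg
  rwa [LinearMap.toMatrix'_comp, LinearMap.toMatrix'_toLin', LinearMap.toMatrix'_id] at this

end OliftAux

theorem p_OLIFT :
    S_OLIFT := by
  intro I J K _ _ B r₀ hB hinj h0
  classical
  obtain ⟨L, hL⟩ := OliftAux.exists_left (B 0) hinj
  have hLB : ∀ i j, RegFn fun u => (L * B u) i j :=
    RegFn.matMul (A := fun _ => L) (fun _ _ => RegFn.const _) hB
  have hd : RegFn fun u => (L * B u).det := RegFn.det hLB
  have hd0 : (L * B 0).det ≠ 0 := by rw [hL, Matrix.det_one]; exact one_ne_zero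
  refine ⟨fun u => r₀ - ((L * B u).det)⁻¹ • (r₀ * B u * (L * B u).adjugate * L), fun i j => ?_,
    ?_, ?_⟩
  · simp only [Matrix.sub_apply, Matrix.smul_apply, smul_eq_mul]
    refine (RegFn.const _).sub ((hd.inv hd0).mul ?_)
    exact RegFn.matMul (A := fun u => r₀ * B u * (L * B u).adjugate) (B := fun _ => L)
      (RegFn.matMul (A := fun u => r₀ * B u) (B := fun u => (L * B u).adjugate)
        (RegFn.matMul (A := fun _ => r₀) (fun _ _ => RegFn.const _) hB) (RegFn.adjugate hLB))
      (fun _ _ => RegFn.const _) i j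
  · simp only [h0, Matrix.zero_mul, smul_zero, sub_zero]
  · refine (hd.finite_zero hd0).subset fun u hu => ?_
    by_contra hne
    have hne' : (L * B u).det ≠ 0 := hne
    refine hu ⟨?_, ?_⟩
    · rw [Matrix.sub_mul, Matrix.smul_mul, Matrix.mul_assoc _ L, Matrix.mul_assoc _ _ (L * B u),
        Matrix.adjugate_mul, Matrix.mul_smul, Matrix.mul_one, smul_smul, inv_mul_cancel₀ hne',
        one_smul, sub_self]
    · have h1 : Function.Injective (L * B u).mulVec :=
        Matrix.mulVec_injective_iff_isUnit.2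
          ((Matrix.isUnit_iff_isUnit_det _).2 (isUnit_iff_ne_zero.2 hne'))
      intro v w hvw
      apply h1
      rw [← Matrix.mulVec_mulVec, ← Matrix.mulVec_mulVec, hvw]

end Pool.Agent.P.MP_52ab5a_al
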