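import Pool.Agent.P.MP_52ab5a_al.O.Iface
import Pool.Agent.P.MP_52ab5a_al.F.Iface

/-! Step OONE of the open orbit project. -/

namespace Pool.Agent.P.MP_52ab5a_al

open MvPolynomial WM

namespace OoneAux

open Matrix

variable {Q₀ Q₁ β : Type} [DecidableEq Q₀] (s t : Q₁ → Q₀) (vx : β → Q₀)

theorem coord (i : Ent s t vx ⊕ Ent s t vx) : ∃ a r c, ∀ y, y i = dbl s t vx y a r c := by
  rcases i with q | q
  · exact ⟨Sum.inl q.1.1, q.1.2.1, q.1.2.2, fun y => by simp [dbl, mat, q.2]⟩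
  · exact ⟨Sum.inr q.1.1, q.1.2.2, q.1.2.1, fun y => by simp [dbl, mat, q.2]⟩

theorem reg_dbl {c : ℂ → Ent s t vx ⊕ Ent s t vx → ℂ} (hc : ∀ i, RegFn fun u => c u i)
    (a : Q₁ ⊕ Q₁) (r d : β) : RegFn fun u => dbl s t vx (c u) a r d := by
  rcases a with a | a
  · exact RegFn.dite _ (fun _ => hc _) fun _ => RegFn.const 0
  · exact RegFn.dite _ (fun _ => hc _) fun _ => RegFn.const 0

/-- The sign of an arrow in the preprojective relation. -/
def sg : Q₁ ⊕ Q₁ → ℂ := Sum.elim (fun _ => -1) fun _ => 1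

theorem sg_ne (a : Q₁ ⊕ Q₁) : sg a ≠ 0 := by rcases a with a | a <;> simp [sg]

omit [DecidableEq Q₀] in
theorem swap_elim (a : Q₁ ⊕ Q₁) : Sum.elim s t a.swap = Sum.elim t s a := by
  rcases a with a | a <;> rfl

variable (p : β → Prop) (j : Q₀)

/-- The matrix of all arrows that start at `j`. -/
def Bm (z : Ent s t (vx ∘ Subtype.val : {b // p b} → Q₀) ⊕
    Ent s t (vx ∘ Subtype.val : {b // p b} → Q₀) → ℂ) :
    Matrix ((Q₁ ⊕ Q₁) × {b // p b}) {b // p b ∧ vx b = j} ℂ :=
  of fun x k => sg x.1 * dbl s t (vx ∘ Subtype.val) z x.1.swap x.2 ⟨k.1, k.2.1⟩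

variable [Fintype β] [DecidablePred p]

theorem sub_mul (M N : Matrix β β ℂ) (d c : β) (h : ∀ x, ¬p x → M d x * N x c = 0) :
    (M * N) d c = ∑ x : {b // p b}, M d x * N x c :=
  (Fintype.sum_of_injective Subtype.val Subtype.val_injective _ _
    (fun x hx => h x fun hp => hx ⟨⟨x, hp⟩, rfl⟩) fun _ => rfl).symm

theorem mom [Fintype Q₁] {y : Ent s t vx ⊕ Ent s t vx → ℂ} (hK : Kills s t vx p y) (b c : β) :
    (∑ a, (dbl s t vx y (Sum.inr a) * dbl s t vx y (Sum.inl a) -
      dbl s t vx y (Sum.inl a) * dbl s t vx y (Sum.inr a))) b c =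
    ∑ x : (Q₁ ⊕ Q₁) × {b // p b}, dbl s t vx y x.1 b x.2 * (sg x.1 * dbl s t vx y x.1.swap x.2 c) := by
  rw [Fintype.sum_prod_type, Fintype.sum_sum_type, ← Finset.sum_add_distrib, Matrix.sum_apply]
  refine Finset.sum_congr rfl fun a _ => ?_
  rw [Matrix.sub_apply, sub_mul p _ _ _ _ fun x hx => by rw [hK _ _ _ hx, zero_mul],
    sub_mul p _ _ _ _ fun x hx => by rw [hK _ _ _ hx, zero_mul]]
  simp [sg, sub_eq_neg_add]

end OoneAux

open OoneAux Matrix in
theorem p_OONE (hADM : S_ADM) (hOLIFT : S_OLIFT) (hOBLK : S_OBLK) :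
    S_OONE := by
  classical
  intro Q₀ Q₁ β _ _ _ _ s t vx p _ j y hst hj hK hsoc hy hCR c' hc' hc0 hfin
  obtain ⟨-, -, ext1, -, ex1, sup1, -⟩ := hADM Q₀ Q₁ β s t vx
  obtain ⟨-, -, ext2, -, -, sup2, -⟩ := hADM Q₀ Q₁ {b // p b} s t (vx ∘ Subtype.val)
  have blk := fun z => (hOBLK Q₀ Q₁ β s t vx p z).1
  have loop : ∀ a : Q₁ ⊕ Q₁, Sum.elim s t a ≠ Sum.elim t s a := by
    rintro (a | a)
    exacts [hst a, (hst a).symm]
  obtain ⟨r, r1, r2, r3⟩ := hOLIFT {b // ¬p b} _ _ (fun u => Bm s t vx p j (c' u))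
    (of fun b x => dbl s t vx y x.1 b x.2)
    (fun x k => (RegFn.const _).mul (reg_dbl s t _ hc' _ _ _)) (by
      refine (injective_iff_map_eq_zero (Bm s t vx p j (c' 0)).mulVecLin).2 fun v hv => ?_
      have h1 := hsoc (fun b => if h : p b ∧ vx b = j then v ⟨b, h⟩ else 0)
        (fun b hb => dif_neg fun h => hb h.2) fun a => funext fun d => by
          by_cases hd : p d
          · have h2 := congrFun hv (a.swap, ⟨d, hd⟩)
            simp only [mulVecLin_apply, mulVec, dotProduct, Bm, of_apply, hc0, blk, Sum.swap_swap,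
              submatrix_apply, mul_assoc, ← Finset.mul_sum, Pi.zero_apply] at h2
            refine Eq.trans ?_ ((mul_eq_zero.1 h2).resolve_left (sg_ne _))
            exact (Fintype.sum_of_injective Subtype.val Subtype.val_injective _ _
              (fun x hx => mul_eq_zero_of_right _ (dif_neg fun h => hx ⟨⟨x, h⟩, rfl⟩))
              fun k => by simp only [dif_pos k.2]).symm
          · refine Finset.sum_eq_zero fun b _ => ?_
            by_contra h
            obtain ⟨h3, h4⟩ := mul_ne_zero_iff.1 h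
            obtain ⟨h5, h6⟩ := sup1 y a d b h3
            exact h4 (dif_neg fun e => loop a (by rw [← h5, ← h6, e.2, hj d hd]))
      funext k
      exact (dif_pos k.2).symm.trans (h1 k.1 k.2.1)) (by
      ext b k
      have h1 := congrFun (congrFun hy.1 b.1) k.1
      rw [mom s t vx p hK] at h1
      simpa only [Matrix.mul_apply, Bm, of_apply, hc0, blk, submatrix_apply, Matrix.zero_apply]
        using h1)
  let A : ℂ → Q₁ ⊕ Q₁ → Matrix β β ℂ := fun u a => of fun row col =>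
    if hc : p col then
      (if hr : p row then dbl s t (vx ∘ Subtype.val) (c' u) a ⟨row, hr⟩ ⟨col, hc⟩
      else if vx row = Sum.elim t s a ∧ vx col = Sum.elim s t a then r u ⟨row, hr⟩ (a, ⟨col, hc⟩)
      else 0)
    else 0
  have A1 : ∀ u a (x z : {b // p b}), A u a x z = dbl s t (vx ∘ Subtype.val) (c' u) a x z :=
    fun u a x z => by simp only [A, of_apply, dif_pos x.2, dif_pos z.2]
  have A2 : ∀ u a (b : {b // ¬p b}) (z : {b // p b}), A u a b z =
      if vx b = Sum.elim t s a ∧ vx z = Sum.elim s t a then r u b (a, z) else 0 :=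
    fun u a b z => by simp only [A, of_apply, dif_neg b.2, dif_pos z.2]
  have A3 : ∀ u a x z, ¬p z → A u a x z = 0 := fun u a x z hz => dif_neg hz
  have A4 : ∀ u a x z, A u a x z ≠ 0 → vx x = Sum.elim t s a ∧ vx z = Sum.elim s t a := by
    intro u a x z h
    by_cases hz : p z
    · by_cases hx : p x
      · exact sup2 (c' u) a ⟨x, hx⟩ ⟨z, hz⟩ (by rwa [← A1])
      · by_contra e
        exact h ((A2 u a ⟨x, hx⟩ ⟨z, hz⟩).trans (if_neg e))
    · exact absurd (A3 u a x z hz) h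
  choose c hc using fun u => ex1 (A u) (A4 u)
  have cK : ∀ u, Kills s t vx p (c u) := fun u a x z hz => by rw [hc, A3 u a x z hz]
  have cr : ∀ u, rst s t vx p (c u) = c' u := fun u => ext2 _ _ fun a => by
    ext x z
    rw [blk, hc, submatrix_apply, A1]
  have h3 := hCR c (fun i => by
    obtain ⟨a, x, z, e⟩ := coord s t vx i
    simp only [fun u => e (c u), hc]
    exact RegFn.dite _ (fun _ => RegFn.dite _ (fun _ => reg_dbl s t _ hc' _ _ _) fun _ =>
      RegFn.ite _ (r1 _ _) (RegFn.const 0)) fun _ => RegFn.const 0) (ext1 _ _ fun a => by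
    ext x z
    rw [hc]
    by_cases hz : p z
    · by_cases hx : p x
      · exact (A1 0 a ⟨x, hx⟩ ⟨z, hz⟩).trans (by rw [hc0, blk]; rfl)
      · refine (A2 0 a ⟨x, hx⟩ ⟨z, hz⟩).trans ?_
        rw [r2]
        split_ifs with e
        · rfl
        · exact (not_not.1 fun h => e (sup1 y a x z (Ne.symm h)))
    · rw [A3 0 a x z hz, hK a x z hz]) ((hfin.union r3).subset fun u hu => by
    by_contra hn
    simp only [Set.mem_union, Set.mem_ofPred_eq, not_or, not_not] at hn
    refine hu (((hOBLK Q₀ Q₁ β s t vx p (c u)).2 (cK u)).2.1 (by rw [cr]; exact hn.1)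
      fun b z hb => ?_)
    rw [mom s t vx p (cK u)]
    simp only [hc]
    by_cases hz : p z ∧ vx z = j
    · refine Eq.trans (Finset.sum_congr rfl fun x _ => ?_)
        (congrFun (congrFun hn.2.1 ⟨b, hb⟩) ⟨z, hz⟩)
      have e1 := A1 u x.1.swap x.2 ⟨z, hz.1⟩
      have e2 := A2 u x.1 ⟨b, hb⟩ x.2
      simp only [Bm, of_apply, ← e1]
      by_cases h0 : A u x.1.swap x.2 z = 0
      · rw [h0, mul_zero, mul_zero, mul_zero]
      · obtain ⟨h4, h5⟩ := A4 _ _ _ _ h0
        rw [swap_elim] at h4 h5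
        rw [e2, if_pos ⟨by rw [← h5, hz.2, hj b hb], h4⟩]
    · refine Finset.sum_eq_zero fun x _ => ?_
      by_contra h
      obtain ⟨h4, h5⟩ := mul_ne_zero_iff.1 h
      have h6 := right_ne_zero_of_mul h5
      have h7 := (A4 _ _ _ _ h6).2
      rw [swap_elim, ← (A4 _ _ _ _ h4).1, hj b hb] at h7
      exact hz ⟨not_not.1 fun e => h6 (A3 _ _ _ _ e), h7⟩)
  refine (r3.union h3).subset fun u hu => ?_
  by_contra hn
  simp only [Set.mem_union, Set.mem_ofPred_eq, not_or, not_not] at hn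
  obtain ⟨⟨-, inj⟩, γ, g1, g2, g3⟩ := hn
  have g4 : ∀ x b, p x → ¬p b → γ x b = 0 := by
    intro x b hx hb
    by_cases hxj : vx x = j
    · refine congrFun ((injective_iff_map_eq_zero (Bm s t vx p j (c' u)).mulVecLin).1 inj
        (fun k => γ k b) (funext fun w => ?_)) ⟨x, hx, hxj⟩
      have h4 := congrFun (congrFun (g3 w.1.swap) w.2) b
      rw [Matrix.mul_apply, Finset.sum_eq_zero fun l _ => by rw [hK _ _ _ hb, mul_zero], hc,
        Matrix.mul_apply] at h4
      simp only [mulVecLin_apply, mulVec, dotProduct, Bm, of_apply, mul_assoc, ← Finset.mul_sum,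
        Pi.zero_apply, ← A1]
      refine mul_eq_zero_of_right _ (Eq.trans ?_ h4.symm)
      refine Fintype.sum_of_injective Subtype.val Subtype.val_injective _ _ (fun l hl => ?_)
        fun _ => rfl
      by_cases hl' : p l
      · rw [g2 l b fun e => hl ⟨⟨l, hl', e.trans (hj b hb)⟩, rfl⟩, mul_zero]
      · rw [A3 _ _ _ _ hl', zero_mul]
    · exact g2 x b (by rwa [hj b hb])
  obtain ⟨δ, hδ⟩ := g1.exists_right_inv
  refine hu ⟨γ.submatrix Subtype.val Subtype.val, IsUnit.of_mul_eq_one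
    (δ.submatrix Subtype.val Subtype.val) ?_, fun x z h => g2 x z h, fun a => ?_⟩
  · ext x z
    have h4 := congrFun (congrFun hδ x) z
    rw [sub_mul p _ _ _ _ fun l hl => by rw [g4 _ _ x.2 hl, zero_mul]] at h4
    refine h4.trans ?_
    simp [Matrix.one_apply, Subtype.ext_iff]
  · ext x z
    have h4 := congrFun (congrFun (g3 a) x) z
    rw [sub_mul p _ _ _ _ fun l hl => by rw [g4 _ _ x.2 hl, zero_mul],
      sub_mul p _ _ _ _ fun l hl => by rw [cK u _ _ _ hl, zero_mul]] at h4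
    rw [← cr u, blk, blk]
    exact h4

end Pool.Agent.P.MP_52ab5a_al
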