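import Pool.Agent.P.MP_52ab5a_al.O.Iface
import Pool.Agent.P.MP_52ab5a_al.A.Iface
import Pool.Agent.P.MP_52ab5a_al.F.Iface

/-! Step OTAN of the open orbit project. -/

namespace Pool.Agent.P.MP_52ab5a_al

open MvPolynomial WM

namespace OtanAux

theorem pencil (hPSOL : S_PSOL) {E α r : Type} [Fintype r] [AddCommGroup E] [Module ℂ E]
    (e : (r → ℂ) ≃ₗ[ℂ] E) (A B : E →ₗ[ℂ] α → ℂ)
    (h : {u : ℂ | ¬∃ T : E →ₗ[ℂ] E, Function.Injective T ∧
      ∀ w, A w = 0 → A (T w) + u • B (T w) = 0}.Finite) (w : E) (hw : A w = 0) :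
    ∃ ξ, A ξ + B w = 0 := by
  classical
  have key : ∀ (F : E →ₗ[ℂ] α → ℂ) (v : r → ℂ) (a : α),
      ∑ j, F (e (Pi.single j 1)) a * v j = F (e v) a := fun F v a => by
    conv_rhs => rw [pi_eq_sum_univ' v]
    simp only [map_sum, map_smul, Finset.sum_apply, Pi.smul_apply, smul_eq_mul, mul_comm]
  obtain ⟨ρ, hρ⟩ : ∃ ρ : α → r → Polynomial ℂ, ∀ a j, ρ a j =
      Polynomial.C (A (e (Pi.single j 1)) a) +
        Polynomial.X * Polynomial.C (B (e (Pi.single j 1)) a) := ⟨_, fun _ _ => rfl⟩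
  obtain ⟨k1, k2⟩ := hPSOL α r ρ
  have mem : ∀ u v, v ∈ kerAt ρ u ↔ A (e v) + u • B (e v) = 0 := fun u v => by
    rw [k1, funext_iff]
    refine forall_congr' fun a => ?_
    simp only [hρ, Polynomial.eval_add, Polynomial.eval_mul, Polynomial.eval_C, Polynomial.eval_X,
      add_mul, mul_assoc, Finset.sum_add_distrib, ← Finset.mul_sum, key, Pi.add_apply,
      Pi.smul_apply, smul_eq_mul, Pi.zero_apply]
  have mem0 : ∀ v, v ∈ kerAt ρ 0 ↔ A (e v) = 0 := fun v => by rw [mem, zero_smul, add_zero]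
  obtain ⟨d, m, m1, m2, m3⟩ := k2 0
  obtain ⟨u, hu⟩ := (h.union m3).exists_notMem
  simp only [Set.mem_union, Set.mem_ofPred_eq, not_or, not_not, not_lt] at hu
  obtain ⟨⟨T, T1, T2⟩, hd⟩ := hu
  have le : Module.finrank ℂ (kerAt ρ 0) ≤ d := by
    refine le_trans (LinearMap.finrank_le_finrank_of_injective
      (f := (e.symm.toLinearMap ∘ₗ T ∘ₗ e.toLinearMap).restrict (p := kerAt ρ 0) (q := kerAt ρ u)
        fun v hv => ?_) fun a b c => ?_) hd
    · rw [mem]
      simpa using T2 _ ((mem0 v).1 hv)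
    · exact Subtype.ext (e.injective (T1 (e.symm.injective (congrArg Subtype.val c))))
  have sp : Submodule.span ℂ (Set.range fun i j => (m i j).eval 0) = kerAt ρ 0 := by
    refine Submodule.eq_of_le_of_finrank_le (Submodule.span_le.2 ?_) ?_
    · rintro _ ⟨i, rfl⟩
      refine (k1 0 _).2 fun a => ?_
      simpa only [Polynomial.eval_finsetSum, Polynomial.eval_mul, Polynomial.eval_zero] using
        congrArg (Polynomial.eval 0) (m1 i a)
    · rw [finrank_span_eq_card m2, Fintype.card_fin]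
      exact le
  have hw' : e.symm w ∈ kerAt ρ 0 := (mem0 _).2 (by rw [e.apply_symm_apply, hw])
  rw [← sp, Submodule.mem_span_range_iff_exists_fun] at hw'
  obtain ⟨c, hc⟩ := hw'
  have one : ∀ i, A (e fun j => (m i j).coeff 1) + B (e fun j => (m i j).eval 0) = 0 := fun i => by
    funext a
    have := congrArg (fun p => p.coeff 1) (m1 i a)
    simp only [hρ, add_mul, mul_assoc, Polynomial.finsetSum_coeff, Polynomial.coeff_add,
      Polynomial.coeff_C_mul, Polynomial.coeff_X_mul, Polynomial.coeff_zero,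
      Finset.sum_add_distrib, key] at this
    simp only [← Polynomial.coeff_zero_eq_eval_zero]
    exact this
  refine ⟨∑ i, c i • e fun j => (m i j).coeff 1, ?_⟩
  rw [← e.apply_symm_apply w, ← hc]
  simp only [map_sum, map_smul, ← Finset.sum_add_distrib, ← smul_add, one, smul_zero,
    Finset.sum_const_zero]

end OtanAux

theorem p_OTAN (hPSOL : S_PSOL) (hADM : S_ADM) :
    S_OTAN := by
  intro Q₀ Q₁ β _ _ _ _ s t vx y v h
  classical
  have ad := (hADM Q₀ Q₁ β s t vx).2.2.2.2.2.2.2.1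
  let A : Matrix β β ℂ →ₗ[ℂ] ((Q₁ ⊕ Q₁) × β × β) ⊕ {p : β × β // vx p.1 ≠ vx p.2} → ℂ :=
    { toFun := fun γ => Sum.elim
        (fun p => (γ * dbl s t vx y p.1 - dbl s t vx y p.1 * γ) p.2.1 p.2.2) fun p => γ p.1.1 p.1.2
      map_add' := fun a b => funext fun p => by
        cases p <;> simp [add_mul, mul_add, add_sub_add_comm]
      map_smul' := fun a b => funext fun p => by cases p <;> simp [mul_sub] }
  let B : Matrix β β ℂ →ₗ[ℂ] ((Q₁ ⊕ Q₁) × β × β) ⊕ {p : β × β // vx p.1 ≠ vx p.2} → ℂ :=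
    { toFun := fun γ => Sum.elim (fun p => (-(dbl s t vx v p.1 * γ)) p.2.1 p.2.2) fun _ => 0
      map_add' := fun a b => funext fun p => by cases p <;> simp [mul_add, add_comm]
      map_smul' := fun a b => funext fun p => by cases p <;> simp }
  have hAB : ∀ (γ δ : Matrix β β ℂ) (u : ℂ), A γ + u • B δ = 0 ↔ Gd vx γ ∧ ∀ a,
      γ * dbl s t vx y a - dbl s t vx y a * γ = u • (dbl s t vx v a * δ) := fun γ δ u => by
    rw [funext_iff, Sum.forall, and_comm]
    refine and_congr ⟨fun k c b hcb => by simpa [A, B] using k ⟨(c, b), hcb⟩,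
      fun k p => by simpa [A, B] using k _ _ p.2⟩
      ⟨fun k a => Matrix.ext fun c b => ?_, fun k p => ?_⟩
    · have := k (a, c, b)
      simp only [A, B, LinearMap.coe_mk, AddHom.coe_mk, Pi.add_apply, Pi.smul_apply, Sum.elim_inl,
        Matrix.neg_apply, smul_neg, Pi.zero_apply, add_neg_eq_zero] at this
      exact this
    · simp only [A, B, LinearMap.coe_mk, AddHom.coe_mk, Pi.add_apply, Pi.smul_apply, Sum.elim_inl,
        Matrix.neg_apply, smul_neg, Pi.zero_apply, add_neg_eq_zero, k p.1, Matrix.smul_apply]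
  have hA : ∀ γ : Matrix β β ℂ, A γ = 0 ↔ Gd vx γ ∧ ∀ a,
      γ * dbl s t vx y a = dbl s t vx y a * γ := fun γ => by
    simpa only [zero_smul, add_zero, sub_eq_zero] using hAB γ 0 0
  refine (OtanAux.pencil hPSOL
    ((LinearEquiv.curry ℂ ℂ β β).trans (Matrix.ofLinearEquiv ℂ)) A B (h.subset fun u hu => ?_) 1
    ((hA 1).2 ⟨fun c b hcb => Matrix.one_apply_ne fun e => hcb (congrArg vx e),
      fun a => by simp⟩)).imp fun ξ hξ => ?_
  swap
  · have := (hAB ξ 1 1).1 (by rw [one_smul, hξ])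
    exact ⟨this.1, fun a => by simpa using (this.2 a).symm⟩
  · rintro ⟨γ, g1, g2, g3⟩
    refine hu ⟨LinearMap.mulLeft ℂ γ, g1.mul_right_injective, fun w hw => ?_⟩
    obtain ⟨w1, w2⟩ := (hA w).1 hw
    refine (hAB _ _ u).2 ⟨fun c b hcb => ?_, fun a => ?_⟩
    · refine Finset.sum_eq_zero fun k _ => ?_
      by_cases e : vx c = vx k
      · exact mul_eq_zero_of_right _ (w1 k b (e ▸ hcb))
      · exact mul_eq_zero_of_left (g2 c k e) _
    · have := g3 a
      rw [(ad y _ u a).1, (ad v v u a).2] at this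
      simp only [LinearMap.mulLeft_apply]
      rw [mul_assoc, w2, ← mul_assoc, this, mul_assoc, add_mul, add_sub_cancel_left, smul_mul_assoc]

end Pool.Agent.P.MP_52ab5a_al
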