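import Pool.Agent.P.MP_52ab5a_al.O.Iface
import Pool.Agent.P.MP_52ab5a_al.F.Iface

/-! Step OTWO of the open orbit project. -/

namespace Pool.Agent.P.MP_52ab5a_al

open MvPolynomial WM

namespace OtwoAux

variable {Q₀ Q₁ β : Type}

/-- The signs of the arrows of the double quiver. -/
def eps : Q₁ ⊕ Q₁ → ℂ := Sum.elim (fun _ => -1) fun _ => 1

theorem eps_swap (a : Q₁ ⊕ Q₁) : eps a.swap = -eps a := by cases a <;> simp [eps]

theorem eps_sq (a : Q₁ ⊕ Q₁) : eps a * eps a = 1 := by cases a <;> simp [eps]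

/-- Families of matrices that respect the vertices. -/
def Ty (s t : Q₁ → Q₀) (vx : β → Q₀) (A : Q₁ ⊕ Q₁ → Matrix β β ℂ) : Prop :=
  ∀ a c b, A a c b ≠ 0 → vx c = Sum.elim t s a ∧ vx b = Sum.elim s t a

theorem tgt_swap (s t : Q₁ → Q₀) (a : Q₁ ⊕ Q₁) : Sum.elim t s a.swap = Sum.elim s t a := by
  cases a <;> rfl

variable [Fintype Q₁] [Fintype β]

/-- The linearised relation. -/
noncomputable def Dm (Y V : Q₁ ⊕ Q₁ → Matrix β β ℂ) : Matrix β β ℂ :=
  ∑ a, eps a • (V a * Y a.swap + Y a * V a.swap)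

/-- The commutators with a matrix. -/
def cm (ξ : Matrix β β ℂ) (Y : Q₁ ⊕ Q₁ → Matrix β β ℂ) : Q₁ ⊕ Q₁ → Matrix β β ℂ :=
  fun a => ξ * Y a - Y a * ξ

omit [Fintype β] in
theorem sum_swap {M : Type} [AddCommMonoid M] (f : Q₁ ⊕ Q₁ → M) :
    ∑ a : Q₁ ⊕ Q₁, f a.swap = ∑ a, f a :=
  (Equiv.sumComm Q₁ Q₁).sum_comp f

theorem Dm_add_cm {Y V : Q₁ ⊕ Q₁ → Matrix β β ℂ} (ξ : Matrix β β ℂ)
    (hY : ∑ a, eps a • (Y a * Y a.swap) = 0) : Dm Y (V + cm ξ Y) = Dm Y V := by
  have e : Dm Y (V + cm ξ Y) = Dm Y V + (ξ * ∑ a, eps a • (Y a * Y a.swap) -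
      (∑ a, eps a • (Y a * Y a.swap)) * ξ) := by
    simp only [Dm, Finset.mul_sum, Finset.sum_mul, ← Finset.sum_sub_distrib,
      ← Finset.sum_add_distrib, Matrix.mul_smul, Matrix.smul_mul, ← smul_sub, ← smul_add]
    refine Finset.sum_congr rfl fun a _ => congrArg _ ?_
    simp only [cm, Pi.add_apply]
    noncomm_ring
  rw [e, hY]
  simp

theorem trace_cm (Y V : Q₁ ⊕ Q₁ → Matrix β β ℂ) (ξ : Matrix β β ℂ) :
    ∑ a, eps a * (cm ξ Y a * V a.swap).trace = (ξ * Dm Y V).trace := by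
  have e := sum_swap fun a : Q₁ ⊕ Q₁ => eps a * (ξ * (V a * Y a.swap)).trace
  simp only [Dm, Finset.mul_sum, Matrix.trace_sum, Matrix.mul_smul, Matrix.trace_smul, mul_add,
    Matrix.trace_add, smul_eq_mul, Finset.sum_add_distrib]
  rw [← e, ← Finset.sum_add_distrib]
  refine Finset.sum_congr rfl fun a _ => ?_
  rw [cm, eps_swap, Sum.swap_swap, Matrix.sub_mul, Matrix.trace_sub, Matrix.mul_assoc (Y a),
    Matrix.trace_mul_comm (Y a), Matrix.mul_assoc, Matrix.mul_assoc]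
  ring

omit [Fintype Q₁] in
theorem Ty.add_cm {s t : Q₁ → Q₀} {vx : β → Q₀} {Y V : Q₁ ⊕ Q₁ → Matrix β β ℂ}
    {ξ : Matrix β β ℂ} (hV : Ty s t vx V) (hY : Ty s t vx Y) (hξ : Gd vx ξ) :
    Ty s t vx (V + cm ξ Y) := fun a c b h => by
  by_contra hn
  refine h ?_
  have h1 : V a c b = 0 := by_contra fun h => hn (hV a c b h)
  have h2 : (ξ * Y a) c b = 0 := (Matrix.mul_apply ..).trans <| Finset.sum_eq_zero fun k _ => by
    by_cases h3 : Y a k b = 0
    · rw [h3, mul_zero]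
    · rw [hξ c k fun e => hn ⟨e.trans (hY a k b h3).1, (hY a k b h3).2⟩, zero_mul]
  have h3 : (Y a * ξ) c b = 0 := (Matrix.mul_apply ..).trans <| Finset.sum_eq_zero fun k _ => by
    by_cases h3 : Y a c k = 0
    · rw [h3, zero_mul]
    · rw [hξ k b fun e => hn ⟨(hY a c k h3).1, e.symm.trans (hY a c k h3).2⟩, mul_zero]
  simp only [cm, Pi.add_apply, Matrix.add_apply, Matrix.sub_apply, h1, h2, h3]
  simp

/-- A vector that is killed by all relations between the rows lies in the span of the columns. -/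
theorem solve {I K : Type} [Fintype I] [Fintype K] (B : I → K → ℂ) (w : I → ℂ)
    (h : ∀ r : I → ℂ, (∀ k, ∑ i, r i * B i k = 0) → ∑ i, r i * w i = 0) :
    ∃ η : K → ℂ, ∀ i, w i = ∑ k, B i k * η k := by
  classical
  by_contra hn
  have hw : w ∉ LinearMap.range (Matrix.of B).mulVecLin := by
    rintro ⟨η, hη⟩
    exact hn ⟨η, fun i => (congrFun hη i).symm⟩
  obtain ⟨φ, h1, h2⟩ := Submodule.exists_dual_map_eq_bot_of_notMem hw inferInstance
  have e : ∀ u : I → ℂ, φ u = ∑ i, φ (fun j => if i = j then 1 else 0) * u i := fun u => by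
    rw [LinearMap.pi_apply_eq_sum_univ]
    exact Finset.sum_congr rfl fun i _ => mul_comm _ _
  refine h1 ((e w).trans (h _ fun k => ?_))
  rw [← e]
  have h3 : (fun i => B i k) ∈ LinearMap.range (Matrix.of B).mulVecLin :=
    ⟨Pi.single k 1, funext fun i => by simp⟩
  exact (Submodule.mem_bot ℂ).1 (h2 ▸ Submodule.mem_map_of_mem h3)

/-- The columns outside `p` of a solution of the linearised relation are removed by a base
change. -/
theorem cols {s t : Q₁ → Q₀} {vx : β → Q₀} {p : β → Prop} {j : Q₀}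
    {Y V : Q₁ ⊕ Q₁ → Matrix β β ℂ} (hl : ∀ a, s a ≠ t a) (hj : ∀ b, ¬p b → vx b = j)
    (hY : Ty s t vx Y) (hV : Ty s t vx V) (hK : ∀ a c b, ¬p b → Y a c b = 0) (hD : Dm Y V = 0)
    (hU : ∀ U, Ty s t vx U → (∀ a c b, U a c b ≠ 0 → ¬p c ∧ p b) → Dm Y U = 0 →
      ∃ ξ, U = cm ξ Y) :
    ∃ ξ, Gd vx ξ ∧ ∀ a c b, ¬p b → (V + cm ξ Y) a c b = 0 := by
  classical
  have ne : ∀ a : Q₁ ⊕ Q₁, Sum.elim t s a ≠ Sum.elim s t a := fun a => by
    cases a
    exacts [(hl _).symm, hl _]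
  have key : ∀ b, ∃ η : β → ℂ, ¬p b →
      ∀ a c, V a c b = ∑ k, Y a c k * if vx k = j then η k else 0 := fun b => by
    by_cases hb : p b
    · exact ⟨0, fun h => absurd hb h⟩
    obtain ⟨η, hη⟩ := solve (fun (i : (Q₁ ⊕ Q₁) × β) k => if vx k = j then Y i.1 i.2 k else 0)
      (fun i => V i.1 i.2 b) fun r hr => by
        set r' : Q₁ ⊕ Q₁ → β → ℂ := fun a c =>
          if Sum.elim s t a = j ∧ vx c = Sum.elim t s a then r (a, c) else 0 with hr'
        have e1 : ∀ (Z : Q₁ ⊕ Q₁ → Matrix β β ℂ) (k : β), Ty s t vx Z →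
            ∑ a, ∑ c, r' a c * Z a c k =
              ∑ i, r i * if vx k = j then Z i.1 i.2 k else 0 := fun Z k hZ => by
          rw [Fintype.sum_prod_type]
          refine Finset.sum_congr rfl fun a _ => Finset.sum_congr rfl fun c _ => ?_
          by_cases h0 : Z a c k = 0
          · simp [h0]
          · simp [hr', (hZ a c k h0).1, (hZ a c k h0).2]
        set U : Q₁ ⊕ Q₁ → Matrix β β ℂ := fun a => Matrix.of fun c' c =>
          if c' = b then eps a * r' a.swap c else 0 with hUd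
        have u0 : ∀ a c' c, U a c' c ≠ 0 →
            c' = b ∧ Sum.elim t s a = j ∧ vx c = Sum.elim s t a := fun a c' c h => by
          simp only [hUd, hr', Matrix.of_apply, tgt_swap] at h
          split_ifs at h with h1 h2
          · exact ⟨h1, h2⟩
          · exact absurd (mul_zero _) h
          · exact absurd rfl h
        have e2 : ∀ (Z : Q₁ ⊕ Q₁ → Matrix β β ℂ) (c' k : β),
            ∑ a, eps a * (U a * Z a.swap) c' k =
              if c' = b then ∑ a, ∑ c, r' a c * Z a c k else 0 := fun Z c' k => by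
          simp only [hUd, Matrix.mul_apply, Matrix.of_apply]
          split_ifs
          · rw [← sum_swap fun a => ∑ c, r' a c * Z a c k]
            refine Finset.sum_congr rfl fun a _ => ?_
            rw [Finset.mul_sum]
            refine Finset.sum_congr rfl fun c _ => ?_
            rw [← mul_assoc, ← mul_assoc, eps_sq, one_mul]
          · simp
        obtain ⟨ξ, hξ⟩ := hU U (fun a c' c h => by
            obtain ⟨h1, h2, h3⟩ := u0 a c' c h
            exact ⟨by rw [h1, h2, hj b hb], h3⟩)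
          (fun a c' c h => by
            obtain ⟨h1, h2, h3⟩ := u0 a c' c h
            exact ⟨h1 ▸ hb, by_contra fun h4 => ne a (by rw [h2, ← h3, hj c h4])⟩)
          (by
            ext c' k
            have e3 : ∀ a : Q₁ ⊕ Q₁, Y a * U a.swap = 0 := fun a => by
              ext c k
              rw [Matrix.mul_apply]
              refine Finset.sum_eq_zero fun l _ => ?_
              by_cases h0 : U a.swap l k = 0
              · rw [h0, mul_zero]
              · rw [hK a c l ((u0 _ l k h0).1 ▸ hb), zero_mul]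
            simp only [Dm, e3, add_zero, Matrix.sum_apply, Matrix.smul_apply, smul_eq_mul, e2,
              e1 Y k hY, hr k, ite_self, Matrix.zero_apply])
        have e4 := trace_cm Y V ξ
        rw [hD, ← hξ, Matrix.mul_zero, Matrix.trace_zero] at e4
        simp only [Matrix.trace, Matrix.diag, Finset.mul_sum] at e4
        rw [Finset.sum_comm] at e4
        simp only [e2, Finset.sum_ite_eq', Finset.mem_univ, if_true, e1 V b hV,
          if_pos (hj b hb)] at e4
        exact e4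
    refine ⟨η, fun _ a c => (hη (a, c)).trans (Finset.sum_congr rfl fun k _ => ?_)⟩
    split_ifs <;> simp
  choose η hη using key
  refine ⟨Matrix.of fun k b => if p b then 0 else if vx k = j then η b k else 0,
    fun k b h => ?_, fun a c b hb => ?_⟩
  · simp only [Matrix.of_apply]
    split_ifs with h1 h2
    · rfl
    · exact absurd (h2.trans (hj b h1).symm) h
    · rfl
  · simp only [cm, Pi.add_apply, Matrix.add_apply, Matrix.sub_apply, Matrix.mul_apply,
      Matrix.of_apply, if_neg hb, hK _ _ b hb, mul_zero, Finset.sum_const_zero, ← hη b hb a c]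
    ring

variable [DecidableEq Q₀] {s t : Q₁ → Q₀} {vx : β → Q₀}

theorem DMu_iff (y v : Ent s t vx ⊕ Ent s t vx → ℂ) :
    DMu s t vx y v ↔ Dm (dbl s t vx y) (dbl s t vx v) = 0 := by
  refine Eq.congr_left ?_
  rw [Dm, Fintype.sum_sum_type, ← Finset.sum_add_distrib]
  refine Finset.sum_congr rfl fun a _ => ?_
  simp only [eps, Sum.elim_inl, Sum.elim_inr, Sum.swap_inl, Sum.swap_inr, neg_smul, one_smul]
  abel

theorem mu_eq {y : Ent s t vx ⊕ Ent s t vx → ℂ} (h : MuZero s t vx y) :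
    ∑ a, eps a • (dbl s t vx y a * dbl s t vx y a.swap) = 0 := by
  refine Eq.trans ?_ h
  rw [Fintype.sum_sum_type, ← Finset.sum_add_distrib]
  refine Finset.sum_congr rfl fun a _ => ?_
  simp only [eps, Sum.elim_inl, Sum.elim_inr, Sum.swap_inl, Sum.swap_inr, neg_smul, one_smul]
  abel

end OtwoAux

open OtwoAux in
theorem p_OTWO (hADM : S_ADM) (hOBLK : S_OBLK) :
    S_OTWO := by
  intro Q₀ Q₁ β _ _ _ _ s t vx p _ j y hl hj hK hμ hR hU
  classical
  obtain ⟨-, -, -, -, h5, h6, -⟩ := hADM Q₀ Q₁ β s t vx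
  have ex : ∀ U, Ty s t vx U → ∃ u, dbl s t vx u = U := fun U h =>
    (h5 U h).imp fun _ h => funext h
  have hY : Ty s t vx (dbl s t vx y) := h6 y
  have hm := mu_eq hμ
  have hU' : ∀ U, Ty s t vx U → (∀ a c b, U a c b ≠ 0 → ¬p c ∧ p b) →
      Dm (dbl s t vx y) U = 0 → ∃ ξ, Gd vx ξ ∧ U = cm ξ (dbl s t vx y) := fun U h1 h2 h3 => by
    obtain ⟨u, rfl⟩ := ex U h1
    obtain ⟨ξ, h4, h5⟩ := hU u h2 ((DMu_iff y u).2 h3)
    exact ⟨ξ, h4, funext h5⟩
  refine ⟨hμ, fun v hv => ?_⟩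
  have hD := (DMu_iff y v).1 hv
  obtain ⟨ξ, g1, k1⟩ := OtwoAux.cols hl hj hY (h6 v) hK hD fun U h1 h2 h3 =>
    (hU' U h1 h2 h3).imp fun _ h => h.2
  have t1 := Ty.add_cm (h6 v) hY g1
  obtain ⟨v₁, e1⟩ := ex _ t1
  have d1 : Dm (dbl s t vx y) (dbl s t vx v₁) = 0 := by rw [e1, Dm_add_cm ξ hm, hD]
  rw [← e1] at k1 t1
  obtain ⟨ξ', g2, k2⟩ := hR.2 _ (((hOBLK Q₀ Q₁ β s t vx p y).2 hK).2.2.1 v₁ k1
    ((DMu_iff y v₁).2 d1))
  simp only [(hOBLK Q₀ Q₁ β s t vx p y).1, (hOBLK Q₀ Q₁ β s t vx p v₁).1] at k2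
  set ξ₂ : Matrix β β ℂ := Matrix.of fun c b =>
    if h : p c ∧ p b then -ξ' ⟨c, h.1⟩ ⟨b, h.2⟩ else 0 with hξ₂
  have g3 : Gd vx ξ₂ := fun c b h => by
    simp only [hξ₂, Matrix.of_apply]
    split_ifs with h1
    · rw [g2 ⟨c, h1.1⟩ ⟨b, h1.2⟩ h, neg_zero]
    · rfl
  have sm : ∀ f : β → ℂ, (∀ k, ¬p k → f k = 0) → ∑ k, f k = ∑ k : {b // p b}, f k := fun f h => by
    rw [← Finset.sum_subtype (Finset.univ.filter p) (by simp) f, Finset.sum_filter_of_ne]
    exact fun k _ h1 => by_contra fun h2 => h1 (h k h2)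
  obtain ⟨ξ₃, g4, k4⟩ := hU' _ (Ty.add_cm t1 hY g3) (fun a c b h => by
    have hb : p b := by_contra fun hb => h (by
      simp [cm, hξ₂, Matrix.mul_apply, hb, k1 a c b hb, hK a _ b hb])
    refine ⟨fun hc => h ?_, hb⟩
    have k3 := congrFun (congrFun (k2 a) ⟨c, hc⟩) ⟨b, hb⟩
    simp only [Matrix.submatrix_apply, Matrix.sub_apply, Matrix.mul_apply] at k3
    simp only [cm, Pi.add_apply, Matrix.add_apply, Matrix.sub_apply, Matrix.mul_apply]
    rw [k3, sm _ fun k hk => by simp [hξ₂, hk], sm _ fun k hk => by simp [hξ₂, hk]]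
    simp [hξ₂, hc, hb, Subtype.property]) (by rw [Dm_add_cm ξ₂ hm, d1])
  refine ⟨ξ₃ - ξ₂ - ξ, fun c b h => ?_, fun a => ?_⟩
  · simp only [Matrix.sub_apply, g1 c b h, g3 c b h, g4 c b h, sub_zero]
  · have k5 := congrFun k4 a
    rw [e1] at k5
    simp only [cm, Pi.add_apply] at k5
    rw [← sub_eq_zero] at k5 ⊢
    rw [← k5]
    noncomm_ring

end Pool.Agent.P.MP_52ab5a_al
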