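import Pool.Agent.P.MP_52ab5a_al.F.Iface

/-! Open orbits are rigid: definitions and statements. -/

namespace Pool.Agent.P.MP_52ab5a_al

open MvPolynomial WM

/-- Rational functions of one variable that are regular at the origin. -/
def RegFn (f : ℂ → ℂ) : Prop :=
  ∃ q P : Polynomial ℂ, q.eval 0 ≠ 0 ∧ ∀ u, q.eval u ≠ 0 → q.eval u * f u = P.eval u

namespace RegFn

theorem const (a : ℂ) : RegFn fun _ => a := ⟨1, Polynomial.C a, by simp, by simp⟩

theorem id : RegFn fun u => u := ⟨1, Polynomial.X, by simp, by simp⟩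

theorem add {f g : ℂ → ℂ} (hf : RegFn f) (hg : RegFn g) : RegFn fun u => f u + g u := by
  obtain ⟨q, P, h0, h⟩ := hf
  obtain ⟨q', P', h0', h'⟩ := hg
  refine ⟨q * q', P * q' + q * P', by simp [h0, h0'], fun u hu => ?_⟩
  simp only [Polynomial.eval_mul, ne_eq, mul_eq_zero, not_or] at hu
  simp only [Polynomial.eval_mul, Polynomial.eval_add, ← h u hu.1, ← h' u hu.2]
  ring

theorem mul {f g : ℂ → ℂ} (hf : RegFn f) (hg : RegFn g) : RegFn fun u => f u * g u := by
  obtain ⟨q, P, h0, h⟩ := hf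
  obtain ⟨q', P', h0', h'⟩ := hg
  refine ⟨q * q', P * P', by simp [h0, h0'], fun u hu => ?_⟩
  simp only [Polynomial.eval_mul, ne_eq, mul_eq_zero, not_or] at hu
  simp only [Polynomial.eval_mul, ← h u hu.1, ← h' u hu.2]
  ring

theorem neg {f : ℂ → ℂ} (hf : RegFn f) : RegFn fun u => -f u := by
  simpa using (const (-1)).mul hf

theorem sub {f g : ℂ → ℂ} (hf : RegFn f) (hg : RegFn g) : RegFn fun u => f u - g u := by
  simpa [sub_eq_add_neg] using hf.add hg.neg

theorem sum {α : Type} (s : Finset α) {f : α → ℂ → ℂ} (h : ∀ a ∈ s, RegFn (f a)) :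
    RegFn fun u => ∑ a ∈ s, f a u := by
  classical
  induction s using Finset.induction_on with
  | empty => simpa using const 0
  | insert a s ha ih =>
    simpa [Finset.sum_insert ha] using
      (h a (Finset.mem_insert_self _ _)).add (ih fun b hb => h b (Finset.mem_insert_of_mem hb))

theorem prod {α : Type} (s : Finset α) {f : α → ℂ → ℂ} (h : ∀ a ∈ s, RegFn (f a)) :
    RegFn fun u => ∏ a ∈ s, f a u := by
  classical
  induction s using Finset.induction_on with
  | empty => simpa using const 1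
  | insert a s ha ih =>
    simpa [Finset.prod_insert ha] using
      (h a (Finset.mem_insert_self _ _)).mul (ih fun b hb => h b (Finset.mem_insert_of_mem hb))

theorem ite (p : Prop) [Decidable p] {f g : ℂ → ℂ} (hf : RegFn f) (hg : RegFn g) :
    RegFn fun u => if p then f u else g u := by
  split_ifs <;> assumption

theorem dite (p : Prop) [Decidable p] {f : p → ℂ → ℂ} {g : ¬p → ℂ → ℂ} (hf : ∀ h, RegFn (f h))
    (hg : ∀ h, RegFn (g h)) : RegFn fun u => if h : p then f h u else g h u := by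
  split_ifs with h
  · exact hf h
  · exact hg h

theorem finite_zero {f : ℂ → ℂ} (hf : RegFn f) (h0 : f 0 ≠ 0) : {u | f u = 0}.Finite := by
  obtain ⟨q, P, hq, h⟩ := hf
  have hP : P ≠ 0 := by
    rintro rfl
    exact mul_ne_zero hq h0 (by simpa using h 0 hq)
  have hq' : q ≠ 0 := by rintro rfl; simp at hq
  refine ((q * P).roots.toFinset.finite_toSet).subset fun u hu => ?_
  simp only [Finset.mem_coe, Multiset.mem_toFinset, Polynomial.mem_roots (mul_ne_zero hq' hP),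
    Polynomial.IsRoot, Polynomial.eval_mul]
  by_cases h1 : q.eval u = 0
  · simp [h1]
  · rw [← h u h1, (show f u = 0 from hu)]; simp

theorem inv {f : ℂ → ℂ} (hf : RegFn f) (h0 : f 0 ≠ 0) : RegFn fun u => (f u)⁻¹ := by
  obtain ⟨q, P, hq, h⟩ := hf
  refine ⟨q * P, q * q, ?_, fun u hu => ?_⟩
  · rw [Polynomial.eval_mul, ← h 0 hq]
    exact mul_ne_zero hq (mul_ne_zero hq h0)
  · simp only [Polynomial.eval_mul, ne_eq, mul_eq_zero, not_or] at hu
    have hf : f u ≠ 0 := fun e => hu.2 (by rw [← h u hu.1, e, mul_zero])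
    simp only [Polynomial.eval_mul, ← h u hu.1]
    field_simp

theorem polyFn {ι : Type} {F : (ι → ℂ) → ℂ} (hF : PolyFn F) {c : ℂ → ι → ℂ}
    (hc : ∀ i, RegFn fun u => c u i) : RegFn fun u => F (c u) := by
  obtain ⟨p, hp⟩ := hF
  simp only [hp]
  clear hp
  induction p using MvPolynomial.induction_on with
  | C a => simpa using const a
  | add p q hp hq => simpa using hp.add hq
  | mul_X p s hp => simpa using hp.mul (hc s)

theorem matMul {α β γ : Type} [Fintype β] {A : ℂ → Matrix α β ℂ} {B : ℂ → Matrix β γ ℂ}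
    (hA : ∀ i j, RegFn fun u => A u i j) (hB : ∀ i j, RegFn fun u => B u i j) (i : α) (j : γ) :
    RegFn fun u => (A u * B u) i j := by
  simp only [Matrix.mul_apply]
  exact sum _ fun k _ => (hA i k).mul (hB k j)

theorem det {α : Type} [Fintype α] [DecidableEq α] {A : ℂ → Matrix α α ℂ}
    (hA : ∀ i j, RegFn fun u => A u i j) : RegFn fun u => (A u).det := by
  simp only [Matrix.det_apply']
  exact sum _ fun σ _ => (const _).mul (prod _ fun i _ => hA _ _)

theorem adjugate {α : Type} [Fintype α] [DecidableEq α] {A : ℂ → Matrix α α ℂ}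
    (hA : ∀ i j, RegFn fun u => A u i j) (i j : α) : RegFn fun u => (A u).adjugate i j := by
  simp only [Matrix.adjugate_apply]
  refine det fun k l => ?_
  simp only [Matrix.updateRow_apply]
  exact ite _ (const _) (hA k l)

end RegFn

section

variable {Q₀ Q₁ β : Type} [DecidableEq Q₀] (s t : Q₁ → Q₀) (vx : β → Q₀)

/-- The entries between basis vectors satisfying `p`. -/
def incl (p : β → Prop) (q : Ent s t (vx ∘ Subtype.val : {b // p b} → Q₀)) : Ent s t vx :=
  ⟨(q.1.1, q.1.2.1.1, q.1.2.2.1), q.2⟩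

/-- The block of a module on the basis vectors satisfying `p`. -/
def rst (p : β → Prop) (y : Ent s t vx ⊕ Ent s t vx → ℂ) :
    Ent s t (vx ∘ Subtype.val : {b // p b} → Q₀) ⊕ Ent s t (vx ∘ Subtype.val : {b // p b} → Q₀) → ℂ :=
  y ∘ Sum.map (incl s t vx p) (incl s t vx p)

/-- All arrows kill the basis vectors that do not satisfy `p`. -/
def Kills (p : β → Prop) (y : Ent s t vx ⊕ Ent s t vx → ℂ) : Prop :=
  ∀ a c b, ¬p b → dbl s t vx y a c b = 0

/-- Vectors supported in the upper right block. -/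
def Upper (p : β → Prop) (v : Ent s t vx ⊕ Ent s t vx → ℂ) : Prop :=
  ∀ a c b, dbl s t vx v a c b ≠ 0 → ¬p c ∧ p b

variable [Fintype Q₁] [Fintype β] [LinearOrder β]

/-- Rational curves through `y` in the nilpotent variety stay in the orbit of `y`. -/
def CR (y : Ent s t vx ⊕ Ent s t vx → ℂ) : Prop :=
  ∀ c : ℂ → Ent s t vx ⊕ Ent s t vx → ℂ, (∀ i, RegFn fun u => c u i) → c 0 = y →
    {u | c u ∉ nilVar s t vx}.Finite → {u | c u ∉ orbit s t vx y}.Finite

end

-- deps: ADM RIGQ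
def S_OCR : Prop := ∀ (Q₀ Q₁ β : Type) [DecidableEq Q₀] [Fintype Q₁] [Fintype β]
  [LinearOrder β] (s t : Q₁ → Q₀) (vx : β → Q₀) (y : Ent s t vx ⊕ Ent s t vx → ℂ),
    (OpenIn (orbit s t vx y) (nilVar s t vx) → CR s t vx y) ∧
    ∀ γ δ z, GInv vx γ δ → Intw s t vx γ y z → CR s t vx y → CR s t vx z

-- deps: PSOL ADM
def S_OTAN : Prop := ∀ (Q₀ Q₁ β : Type) [DecidableEq Q₀] [Fintype Q₁] [Fintype β]
  [LinearOrder β] (s t : Q₁ → Q₀) (vx : β → Q₀) (y v : Ent s t vx ⊕ Ent s t vx → ℂ),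
    {u : ℂ | y + u • v ∉ orbit s t vx y}.Finite → Tang s t vx y v

-- deps:
def S_OLIFT : Prop := ∀ (I J K : Type) [Fintype J] [Fintype K] (B : ℂ → Matrix J K ℂ)
  (r₀ : Matrix I J ℂ), (∀ j k, RegFn fun u => B u j k) → Function.Injective (B 0).mulVec →
    r₀ * B 0 = 0 → ∃ r : ℂ → Matrix I J ℂ, (∀ i j, RegFn fun u => r u i j) ∧ r 0 = r₀ ∧
      {u | ¬(r u * B u = 0 ∧ Function.Injective (B u).mulVec)}.Finite

-- deps: ADM
def S_OBLK : Prop := ∀ (Q₀ Q₁ β : Type) [DecidableEq Q₀] [Fintype Q₁] [Fintype β]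
  [LinearOrder β] (s t : Q₁ → Q₀) (vx : β → Q₀) (p : β → Prop) [DecidablePred p]
  (y : Ent s t vx ⊕ Ent s t vx → ℂ),
    (∀ a, dbl s t (vx ∘ Subtype.val) (rst s t vx p y) a =
      (dbl s t vx y a).submatrix Subtype.val Subtype.val) ∧
    (Kills s t vx p y →
      (y ∈ nilVar s t vx → rst s t vx p y ∈ nilVar s t (vx ∘ Subtype.val)) ∧
      (rst s t vx p y ∈ nilVar s t (vx ∘ Subtype.val) →
        (∀ b c, ¬p b → (∑ a, (dbl s t vx y (Sum.inr a) * dbl s t vx y (Sum.inl a) -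
          dbl s t vx y (Sum.inl a) * dbl s t vx y (Sum.inr a))) b c = 0) → y ∈ nilVar s t vx) ∧
      (∀ v, Kills s t vx p v → DMu s t vx y v →
        DMu s t (vx ∘ Subtype.val) (rst s t vx p y) (rst s t vx p v)) ∧
      ∀ v, y ∈ nilVar s t vx → Upper s t vx p v → DMu s t vx y v →
        ∀ u : ℂ, y + u • v ∈ nilVar s t vx)

-- deps: ADM OLIFT OBLK
def S_OONE : Prop := ∀ (Q₀ Q₁ β : Type) [DecidableEq Q₀] [Fintype Q₁] [Fintype β]
  [LinearOrder β] (s t : Q₁ → Q₀) (vx : β → Q₀) (p : β → Prop) [DecidablePred p] (j : Q₀)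
  (y : Ent s t vx ⊕ Ent s t vx → ℂ), (∀ a, s a ≠ t a) → (∀ b, ¬p b → vx b = j) →
    Kills s t vx p y →
    (∀ v : β → ℂ, (∀ c, vx c ≠ j → v c = 0) → (∀ a, (dbl s t vx y a).mulVec v = 0) →
      ∀ c, p c → v c = 0) →
    y ∈ nilVar s t vx → CR s t vx y → CR s t (vx ∘ Subtype.val) (rst s t vx p y)

-- deps: ADM OBLK
def S_OTWO : Prop := ∀ (Q₀ Q₁ β : Type) [DecidableEq Q₀] [Fintype Q₁] [Fintype β]
  [LinearOrder β] (s t : Q₁ → Q₀) (vx : β → Q₀) (p : β → Prop) [DecidablePred p] (j : Q₀)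
  (y : Ent s t vx ⊕ Ent s t vx → ℂ), (∀ a, s a ≠ t a) → (∀ b, ¬p b → vx b = j) →
    Kills s t vx p y → MuZero s t vx y → RigM s t (vx ∘ Subtype.val) (rst s t vx p y) →
    (∀ v, Upper s t vx p v → DMu s t vx y v → Tang s t vx y v) → RigM s t vx y

-- deps: ADM RIGQ SOC OCR OTAN OBLK OONE OTWO
def S_OIND : Prop := ∀ (Q₀ Q₁ β : Type) [DecidableEq Q₀] [Fintype Q₁] [Fintype β]
  [LinearOrder β] (s t : Q₁ → Q₀) (vx : β → Q₀) (y : Ent s t vx ⊕ Ent s t vx → ℂ),
    (∀ a, s a ≠ t a) → y ∈ nilVar s t vx → CR s t vx y → RigM s t vx y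

end Pool.Agent.P.MP_52ab5a_al
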